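import Pool.Agent.H7.HD.Targets12
import Pool.Agent.H7.HD.All
import Pool.Agent.H63.HDA.LI
import Pool.Agent.H1.HD9.Y5

/-!
# (UP3) measures of large rank, in the sense of `MR`, below a given measure (MP_e37c09_lc)
-/

open Ordinal Cardinal Order Set
open scoped ZFSet

universe u

namespace Pool.Agent.H6.HDB.UP3

open _root_.HD
open Pool.Agent.H63.HDA.LI (dsN dsA upN os_congr)
open Pool.Agent.H1.HD9.Y5 (hod_iV)

theorem inter_V_V {x : ZFSet.{u}} {a b : Ordinal.{u}} (h : a ≤ b) :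
    (x ∩ V_ b) ∩ V_ a = x ∩ V_ a := by
  ext z
  simp only [ZFSet.mem_inter]
  exact ⟨fun hz => ⟨hz.1.1, hz.2⟩,
    fun hz => ⟨⟨hz.1, ZFSet.vonNeumann_subset_of_le h hz.2⟩, hz.2⟩⟩

theorem tr_tr {v : ℕ → ZFSet.{u}} {a b : Ordinal.{u}} (h : a ≤ b) : tr (tr v b) a = tr v a := by
  funext n
  exact inter_V_V h

theorem vh_iV {x : ZFSet.{u}} (hx : HOD x) (a : Ordinal.{u}) : VH a (x ∩ V_ a) :=
  ⟨hod_iV hx a, fun _ hz => (ZFSet.mem_inter.1 hz).2⟩

/-- definability of `MR` with codes, along the traces of a set with codes `cy` -/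
theorem doM (hDMR : T_DMR.{u}) {en : Ordinal.{u} → ZFSet.{u}} (hen : EN en) (φ : Fml)
    {v : ℕ → ZFSet.{u}} (hv : ∀ n, OD (v n)) {y : ZFSet.{u}} {cy : Ordinal.{u} → Ordinal.{u}}
    (hcy : DR fun a b => b = cy a) (hy : ∀ b, en (cy b) = y ∩ V_ b) (i k : ℕ) :
    DO fun w => MR φ v (w i) (y ∩ V_ (w i)) (en (w k)) := by
  have h1 := hDMR en hen φ v hv
  refine (DO.ex (R := fun t w => t = cy (w i) ∧ MR φ v (w i) (en t) (en (w k)))
    (DO.and (hcy.s2 (X := fun a b => b = cy a) (i + 1) 0)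
      (h1.s3 (X := fun x y z => MR φ v x (en y) (en z)) (i + 1) 0 (k + 1)))).congr fun w => ?_
  constructor
  · intro h
    exact ⟨_, rfl, by rw [hy]; exact h⟩
  · rintro ⟨t, rfl, h⟩
    rwa [hy] at h

theorem doMc (hDMR : T_DMR.{u}) {en : Ordinal.{u} → ZFSet.{u}} (hen : EN en) (φ : Fml)
    {v : ℕ → ZFSet.{u}} (hv : ∀ n, OD (v n)) {y : ZFSet.{u}} {cy : Ordinal.{u} → Ordinal.{u}}
    (hcy : DR fun a b => b = cy a) (hy : ∀ b, en (cy b) = y ∩ V_ b)
    {c : Ordinal.{u} → Ordinal.{u}} (hc : DR fun a b => b = c a) :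
    DS {b | MR φ v b (y ∩ V_ b) (en (c b))} := by
  refine DO.congr (DO.ex (R := fun z w => z = c (w 0) ∧ MR φ v (w 0) (y ∩ V_ (w 0)) (en z))
    (DO.and (hc.s2 (X := fun a b => b = c a) 1 0) (doM hDMR hen φ hv hcy hy 1 0))) fun w => ?_
  constructor
  · intro h
    exact ⟨_, rfl, h⟩
  · rintro ⟨z, rfl, h⟩
    exact h

theorem mr_code {en : Ordinal.{u} → ZFSet.{u}} (hen : EN en) {φ : Fml} {v : ℕ → ZFSet.{u}}
    {b : Ordinal.{u}} {y : ZFSet.{u}} : (∃ U, MR φ v b y U) ↔ ∃ z, MR φ v b y (en z) := by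
  constructor
  · rintro ⟨U, hU⟩
    have h1 : HMeas b U := (mr_iff.1 hU).2.1
    obtain ⟨z, rfl⟩ := (hen.od U).1 h1.hod.od
    exact ⟨z, hU⟩
  · rintro ⟨z, hz⟩
    exact ⟨_, hz⟩

theorem dsE (hDMR : T_DMR.{u}) {en : Ordinal.{u} → ZFSet.{u}} (hen : EN en) (φ : Fml)
    {v : ℕ → ZFSet.{u}} (hv : ∀ n, OD (v n)) {y : ZFSet.{u}} {cy : Ordinal.{u} → Ordinal.{u}}
    (hcy : DR fun a b => b = cy a) (hy : ∀ b, en (cy b) = y ∩ V_ b) :
    DS {b | ∃ U, MR φ v b (y ∩ V_ b) U} := by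
  refine DO.congr (DO.ex (R := fun z w => MR φ v (w 0) (y ∩ V_ (w 0)) (en z))
    (doM hDMR hen φ hv hcy hy 1 0)) fun w => ?_
  exact mr_code hen

/-- the least code of a measure of large rank -/
noncomputable def cd (en : Ordinal.{u} → ZFSet.{u}) (φ : Fml) (v : ℕ → ZFSet.{u})
    (y : ZFSet.{u}) (b : Ordinal.{u}) : Ordinal.{u} :=
  sInf {z | MR φ v b (y ∩ V_ b) (en z)}

theorem cd_spec {en : Ordinal.{u} → ZFSet.{u}} (hen : EN en) {φ : Fml} {v : ℕ → ZFSet.{u}}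
    {y : ZFSet.{u}} {b : Ordinal.{u}} (h : ∃ U, MR φ v b (y ∩ V_ b) U) :
    MR φ v b (y ∩ V_ b) (en (cd en φ v y b)) :=
  csInf_mem (s := {z | MR φ v b (y ∩ V_ b) (en z)}) ((mr_code hen).1 h)

theorem dr_cd (hDMR : T_DMR.{u}) {en : Ordinal.{u} → ZFSet.{u}} (hen : EN en) (φ : Fml)
    {v : ℕ → ZFSet.{u}} (hv : ∀ n, OD (v n)) {y : ZFSet.{u}} {cy : Ordinal.{u} → Ordinal.{u}}
    (hcy : DR fun a b => b = cy a) (hy : ∀ b, en (cy b) = y ∩ V_ b) :
    DR fun b z => z = cd en φ v y b := by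
  refine DO.congr (A := fun w => (MR φ v (w 0) (y ∩ V_ (w 0)) (en (w 1)) ∧
    ∀ z < w 1, ¬ MR φ v (w 0) (y ∩ V_ (w 0)) (en z)) ∨
    ((∀ z, ¬ MR φ v (w 0) (y ∩ V_ (w 0)) (en z)) ∧ w 1 = 0)) ?_ fun w => ?_
  · refine DO.or (DO.and (doM hDMR hen φ hv hcy hy 0 1)
      (DO.allLt (R := fun z w => ¬ MR φ v (w 0) (y ∩ V_ (w 0)) (en z)) 1
        (doM hDMR hen φ hv hcy hy 1 0).not)) (DO.and
      (DO.all (R := fun z w => ¬ MR φ v (w 0) (y ∩ V_ (w 0)) (en z))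
        (doM hDMR hen φ hv hcy hy 1 0).not)
      (DO.eqc 1 0))
  · constructor
    · intro h
      by_cases hne : ∃ z, MR φ v (w 0) (y ∩ V_ (w 0)) (en z)
      · left
        have h1 := csInf_mem (s := {z | MR φ v (w 0) (y ∩ V_ (w 0)) (en z)}) hne
        rw [h]
        refine ⟨h1, fun z hz hz' => ?_⟩
        exact absurd hz (not_lt.2 (csInf_le' (s := {z | MR φ v (w 0) (y ∩ V_ (w 0)) (en z)}) hz'))
      · right
        push Not at hne
        refine ⟨hne, ?_⟩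
        rw [h]
        have : {z | MR φ v (w 0) (y ∩ V_ (w 0)) (en z)} = ∅ := by
          ext z
          exact ⟨fun h => hne z h, fun h => absurd h (Set.notMem_empty z)⟩
        show sInf {z | MR φ v (w 0) (y ∩ V_ (w 0)) (en z)} = 0
        rw [this, Ordinal.sInf_empty]
    · rintro (⟨h1, h2⟩ | ⟨h1, h2⟩)
      · apply le_antisymm
        · by_contra hlt
          push Not at hlt
          exact h2 _ hlt (csInf_mem (s := {z | MR φ v (w 0) (y ∩ V_ (w 0)) (en z)}) ⟨_, h1⟩)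
        · exact csInf_le' (s := {z | MR φ v (w 0) (y ∩ V_ (w 0)) (en z)}) h1
      · have : {z | MR φ v (w 0) (y ∩ V_ (w 0)) (en z)} = ∅ := by
          ext z
          exact ⟨fun h => h1 z h, fun h => absurd h (Set.notMem_empty z)⟩
        show w 1 = sInf {z | MR φ v (w 0) (y ∩ V_ (w 0)) (en z)}
        rw [this, Ordinal.sInf_empty, h2]

/-- definability of the relation along the traces -/
theorem dsR (hDER : T_DER.{u}) {en : Ordinal.{u} → ZFSet.{u}} (hen : EN en) (φ : Fml)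
    {v : ℕ → ZFSet.{u}} (hv : ∀ n, OD (v n)) {d y : ZFSet.{u}} {ce cy : Ordinal.{u} → Ordinal.{u}}
    (hce : DR fun a b => b = ce a) (hd : ∀ b, en (ce b) = d ∩ V_ b)
    (hcy : DR fun a b => b = cy a) (hy : ∀ b, en (cy b) = y ∩ V_ b) :
    DS {b | ER φ (tr v b) b (d ∩ V_ b) (y ∩ V_ b)} := by
  have h1 := ((hDER en hen).2.2 φ v hv).2.2
  refine DO.congr (DO.ex (R := fun z w => z = ce (w 0) ∧ ER φ (tr v (w 0)) (w 0) (en z)
    (y ∩ V_ (w 0))) (DO.and (hce.s2 (X := fun a b => b = ce a) 1 0) ?_)) fun w => ?_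
  · refine DO.congr (DO.ex (R := fun t w => t = cy (w 1) ∧ ER φ (tr v (w 1)) (w 1) (en (w 0))
      (en t)) (DO.and (hcy.s2 (X := fun a b => b = cy a) 2 0)
      (h1.s3 (X := fun x y z => ER φ (tr v x) x (en y) (en z)) 2 1 0))) fun w => ?_
    constructor
    · intro h
      exact ⟨_, rfl, by rw [hy]; exact h⟩
    · rintro ⟨t, rfl, h⟩
      rwa [hy] at h
  · constructor
    · intro h
      exact ⟨_, rfl, by rw [hd]; exact h⟩
    · rintro ⟨t, rfl, h⟩
      rw [hd] at h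
      exact h

theorem X (hHMI : T_HMI.{u}) (hLI : T_LI.{u}) (hMLC : T_MLC.{u}) (hDER : T_DER.{u})
    (hDMR : T_DMR.{u}) (hLOS : T_LOS.{u}) (hDN3 : T_DN3.{u}) : T_UP3.{u} := by
  obtain ⟨en, hen⟩ := All.en.{u}
  intro φ v hv κ y W ρ hρ
  have hv' : ∀ n, OD (v n) := fun n => (hv n).od
  obtain ⟨r, hr⟩ : ∃ r, r = ρ y := ⟨_, rfl⟩
  induction r using WellFoundedLT.induction generalizing y W with
  | ind r ih =>
    intro hW hyV hB
    obtain ⟨cy, hcy, hcy'⟩ := (hDER en hen).2.1 y hyV.1.od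
    set c : Ordinal.{u} → Ordinal.{u} := cd en φ v y with hcdef
    have hc : DR fun a b => b = c a := dr_cd hDMR hen φ hv' hcy hcy'
    have dB := doMc hDMR hen φ hv' hcy hcy' hc
    have dN := dsN hHMI hen hc
    have hBN : ∀ b, MR φ v b (y ∩ V_ b) (en (c b)) → NMe b (en (c b)) := fun b hb =>
      (hHMI _ _).1 (mr_iff.1 hb).2.1
    have hB' : os κ {b | MR φ v b (y ∩ V_ b) (en (c b))} ∈ W :=
      hW.up _ _ (dsE hDMR hen φ hv' hcy hcy') dB hB fun b _ hb => cd_spec hen hb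
    have hN : os κ {b | NMe b (en (c b))} ∈ W := hW.up _ _ dB dN hB' fun b _ hb => hBN b hb
    obtain ⟨h1, h2, h3⟩ := hLI en hen c hc κ W hW hN
    refine ⟨lmz en c κ W, mr_mk hyV ((hHMI _ _).2 h1) fun d hd => ?_, h2⟩
    have hdV : VH κ d := hd.1
    obtain ⟨ce, hce, hce'⟩ := (hDER en hen).2.1 d hdV.1.od
    have dY := dsE hDMR hen φ hv' hce hce'
    have dR := dsR hDER hen φ hv' hce hce' hcy hcy'
    have hvV : ∀ n, VH κ (cons d (cons y (tr v κ)) n) := by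
      intro n
      rcases n with _ | _ | n
      · exact hdV
      · exact hyV
      · exact vh_iV (hv n) κ
    have hR : os κ {b | ER φ (tr v b) b (d ∩ V_ b) (y ∩ V_ b)} ∈ W := by
      have h4 := (hLOS κ W hW φ _ hvV).1 hd.2.2
      have h5 : os κ {b | ER φ (tr v b) b (d ∩ V_ b) (y ∩ V_ b)} =
          os κ {b | Sat (VH b) φ (tr (cons d (cons y (tr v κ))) b)} := by
        refine os_congr fun b hb => ?_
        have h6 : tr (cons d (cons y (tr v κ))) b = cons (d ∩ V_ b) (cons (y ∩ V_ b) (tr v b)) := by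
          funext n
          rcases n with _ | _ | n
          · rfl
          · rfl
          · exact inter_V_V hb.le
        change ER φ (tr v b) b (d ∩ V_ b) (y ∩ V_ b) ↔
          Sat (VH b) φ (tr (cons d (cons y (tr v κ))) b)
        rw [h6]
        exact ⟨fun h => h.2.2, fun h => ⟨vh_iV hdV.1 b, vh_iV hyV.1 b, h⟩⟩
      rw [h5]
      exact h4
    have hY : os κ {x | ∃ U, MR φ v x (d ∩ V_ x) U} ∈ lmz en c κ W := by
      rw [h3 _ dY]
      refine upN hW dB dR (dsA hen hc dY) hB' hR fun b _ hbB hbR => ?_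
      have hbN := hBN b hbB
      obtain ⟨U1, h5, h6⟩ := (mr_iff.1 hbB).2.2 (d ∩ V_ b) hbR
      obtain ⟨c', hc', h7, h8⟩ := hMLC en hen b U1 (en (c b)) hbN h6
      have h9 := hDN3 en hen φ v hv b c' (d ∩ V_ b) (en (c b)) U1 hc' hbN h7 h8 h5
      have h10 : os b {x | MR φ v x ((d ∩ V_ b) ∩ V_ x) (en (c' x))} =
          os b {x | MR φ v x (d ∩ V_ x) (en (c' x))} := by
        refine os_congr fun x hx => ?_
        change MR φ v x ((d ∩ V_ b) ∩ V_ x) (en (c' x)) ↔ MR φ v x (d ∩ V_ x) (en (c' x))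
        rw [inter_V_V hx.le]
      rw [h10] at h9
      exact hbN.up _ _ (doMc hDMR hen φ hv' hce hce' hc') dY h9 fun x _ hx => ⟨_, hx⟩
    have hlt : ρ d < r := by rw [hr]; exact hρ d y hd
    exact ih (ρ d) hlt d (lmz en c κ W) rfl h1 hdV hY

end Pool.Agent.H6.HDB.UP3
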